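import Pool.Agent.H37.CNE.Stmts

/-!
# Row SBP: restriction of a place to an intermediate field
-/

set_option autoImplicit false

namespace Pool.CND

theorem sbp_thm : S_SBP := by
  intro k Ω _ _ _ Λ L z hz hz1
  have hne : ∀ x : L, x ≠ 0 → (x : Ω) ≠ 0 := fun x hx h => hx (Subtype.ext h)
  refine ⟨{ ord := fun x => Λ.ord (x : Ω)
            ord_mul := fun x y hx hy => ?_
            ord_add := fun x y hx hy hxy => ?_
            ord_surj := ⟨z, hz, hz1⟩
            ord_const := fun c hc => ?_
            residue := fun x hx h0 => ?_ }, fun x => rfl⟩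
  · exact Λ.ord_mul _ _ (hne x hx) (hne y hy)
  · exact Λ.ord_add _ _ (hne x hx) (hne y hy) (hne _ hxy)
  · exact Λ.ord_const c hc
  · obtain ⟨c, hc⟩ := Λ.residue (x : Ω) (hne x hx) h0
    refine ⟨c, ?_⟩
    rcases hc with hc | hc
    · left
      exact Subtype.ext hc
    · right
      exact hc

end Pool.CND
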