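import Pool.Agent.H37.CNE.Stmts

/-!
# Row SLV: the degree of `k(S, X, Y)` over `k(X)`
-/

set_option autoImplicit false

namespace Pool.CND

open Finset

/-- the residues of `i q (q - 1) + j m` modulo `m q` are distinct -/
theorem slv_res {q m : ℕ} (hq : 2 ≤ q) (hm : 1 ≤ m) (h1 : Nat.Coprime m q)
    (h2 : Nat.Coprime m (q - 1)) {i i' j j' : ℕ} (hi : i < m) (hi' : i' < m) (hj : j < q)
    (hj' : j' < q)
    (h : ((m * q : ℕ) : ℤ) ∣ (-((i : ℤ) * (q * (q - 1) : ℕ)) + -((j : ℤ) * m)) -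
      (-((i' : ℤ) * (q * (q - 1) : ℕ)) + -((j' : ℤ) * m))) : i = i' ∧ j = j' := by
  have e : (-((i : ℤ) * (q * (q - 1) : ℕ)) + -((j : ℤ) * m)) -
      (-((i' : ℤ) * (q * (q - 1) : ℕ)) + -((j' : ℤ) * m)) =
      ((i' : ℤ) - i) * ((q : ℤ) * ((q - 1 : ℕ) : ℤ)) + ((j' : ℤ) - j) * m := by
    push_cast
    ring
  rw [e] at h
  have hqz : (0 : ℤ) < q := by exact_mod_cast (by omega : 0 < q)
  have hmz : (0 : ℤ) < m := by exact_mod_cast (by omega : 0 < m)
  have hj0 : j = j' := by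
    have h3 : (q : ℤ) ∣ ((i' : ℤ) - i) * ((q : ℤ) * ((q - 1 : ℕ) : ℤ)) + ((j' : ℤ) - j) * m :=
      Dvd.dvd.trans ⟨(m : ℤ), by push_cast; ring⟩ h
    have h4 : (q : ℤ) ∣ ((j' : ℤ) - j) * m := by
      have h5 : (q : ℤ) ∣ ((i' : ℤ) - i) * ((q : ℤ) * ((q - 1 : ℕ) : ℤ)) :=
        ⟨((i' : ℤ) - i) * ((q - 1 : ℕ) : ℤ), by ring⟩
      exact (Int.dvd_add_right h5).mp h3
    have h6 : IsCoprime (q : ℤ) (m : ℤ) := Nat.isCoprime_iff_coprime.mpr h1.symm
    have h7 : (q : ℤ) ∣ (j' : ℤ) - j := h6.dvd_of_dvd_mul_right h4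
    have h8 : (j' : ℤ) - j = 0 := by
      apply Int.eq_zero_of_abs_lt_dvd h7
      rw [abs_lt]
      constructor <;> omega
    omega
  subst hj0
  refine ⟨?_, rfl⟩
  have h3 : ((m * q : ℕ) : ℤ) ∣ ((i' : ℤ) - i) * ((q : ℤ) * ((q - 1 : ℕ) : ℤ)) := by
    have : ((i' : ℤ) - i) * ((q : ℤ) * ((q - 1 : ℕ) : ℤ)) + ((j : ℤ) - j) * m =
        ((i' : ℤ) - i) * ((q : ℤ) * ((q - 1 : ℕ) : ℤ)) := by ring
    rwa [this] at h
  have h4 : (m : ℤ) ∣ ((i' : ℤ) - i) * ((q - 1 : ℕ) : ℤ) := by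
    obtain ⟨c, hc⟩ := h3
    refine ⟨c, ?_⟩
    have : (q : ℤ) * (((i' : ℤ) - i) * ((q - 1 : ℕ) : ℤ)) = (q : ℤ) * (m * c) := by
      push_cast at hc ⊢
      linear_combination hc
    exact mul_left_cancel₀ hqz.ne' this
  have h6 : IsCoprime (m : ℤ) ((q - 1 : ℕ) : ℤ) := Nat.isCoprime_iff_coprime.mpr h2
  have h7 : (m : ℤ) ∣ (i' : ℤ) - i := h6.dvd_of_dvd_mul_right h4
  have h8 : (i' : ℤ) - i = 0 := by
    apply Int.eq_zero_of_abs_lt_dvd h7
    rw [abs_lt]
    constructor <;> omega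
  omega

theorem slv_thm (hSLS : S_SLS) (hVEC : S_VEC) (hSLX : S_SLX) : S_SLV := by
  intro k Ω _ _ _ Λ q m S X Y hq hm hc1 hc2 hS hX hY oS oX oY eX eXY
  have hle : IntermediateField.adjoin k {X} ≤ IntermediateField.adjoin k {S, X, Y} := by
    apply IntermediateField.adjoin.mono
    intro z hz
    rw [Set.mem_singleton_iff] at hz
    subst hz
    simp
  rw [IntermediateField.relfinrank_eq_finrank_of_le hle]
  have hSm : S ∈ IntermediateField.adjoin k {S, X, Y} :=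
    IntermediateField.subset_adjoin k _ (by simp)
  have hYm : Y ∈ IntermediateField.adjoin k {S, X, Y} :=
    IntermediateField.subset_adjoin k _ (by simp)
  let e : Fin m × Fin q → IntermediateField.extendScalars hle := fun ij =>
    ⟨S ^ (ij.1 : ℕ) * Y ^ (ij.2 : ℕ), by
      rw [IntermediateField.mem_extendScalars]
      exact mul_mem (pow_mem hSm _) (pow_mem hYm _)⟩
  have he : ∀ ij, ((e ij : IntermediateField.extendScalars hle) : Ω) =
      S ^ (ij.1 : ℕ) * Y ^ (ij.2 : ℕ) := fun ij => rfl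
  have hSY : ∀ ij : Fin m × Fin q, S ^ (ij.1 : ℕ) * Y ^ (ij.2 : ℕ) ≠ 0 := fun ij =>
    mul_ne_zero (pow_ne_zero _ hS) (pow_ne_zero _ hY)
  have hord : ∀ ij : Fin m × Fin q, Λ.ord (S ^ (ij.1 : ℕ) * Y ^ (ij.2 : ℕ)) =
      -(((ij.1 : ℕ) : ℤ) * (q * (q - 1) : ℕ)) + -(((ij.2 : ℕ) : ℤ) * m) := by
    intro ij
    rw [Λ.ord_mul _ _ (pow_ne_zero _ hS) (pow_ne_zero _ hY), Λ.ord_pow hS, Λ.ord_pow hY, oS, oY]
    ring
  have hli : LinearIndependent (IntermediateField.adjoin k {X}) e := by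
    rw [Fintype.linearIndependent_iff]
    intro g hg
    by_contra hcon
    push Not at hcon
    obtain ⟨i0, hi0⟩ := hcon
    have h1 : ∑ ij, ((g ij : IntermediateField.adjoin k {X}) : Ω) *
        (S ^ (ij.1 : ℕ) * Y ^ (ij.2 : ℕ)) = 0 := by
      have h2 := congrArg (fun z : IntermediateField.extendScalars hle => (z : Ω)) hg
      simp only [AddSubmonoidClass.coe_finset_sum, ZeroMemClass.coe_zero] at h2
      rw [← h2]
      refine Finset.sum_congr rfl fun ij _ => ?_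
      rfl
    have h3 := hVEC k Ω (Fin m × Fin q) Λ (m * q) (fun ij => S ^ (ij.1 : ℕ) * Y ^ (ij.2 : ℕ))
      (fun ij => ((g ij : IntermediateField.adjoin k {X}) : Ω)) (Nat.mul_pos hm (by omega)) hSY
      (fun i j hij hd => by
        apply hij
        rw [hord i, hord j] at hd
        obtain ⟨h4, h5⟩ := slv_res hq hm hc1 hc2 i.1.2 j.1.2 i.2.2 j.2.2 hd
        exact Prod.ext (Fin.ext h4) (Fin.ext h5))
      (fun ij => by
        by_cases h0 : ((g ij : IntermediateField.adjoin k {X}) : Ω) = 0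
        · exact Or.inl h0
        · right
          exact (hSLX k Ω Λ X (m * q) (Nat.mul_pos hm (by omega)) hX oX _ (g ij).2 h0).1)
      ⟨i0, fun h0 => hi0 (Subtype.ext h0)⟩
    exact h3.1 h1
  have hsp : ⊤ ≤ Submodule.span (IntermediateField.adjoin k {X}) (Set.range e) := by
    intro z _
    obtain ⟨c, hc, hz⟩ := hSLS k Ω q m S X Y hq hm hX eX eXY (z : Ω)
      ((IntermediateField.mem_extendScalars hle).mp z.2)
    have h1 : z = ∑ ij : Fin m × Fin q,
        (⟨c ij.1 ij.2, hc _ _⟩ : IntermediateField.adjoin k {X}) • e ij := by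
      apply Subtype.ext
      rw [hz, AddSubmonoidClass.coe_finset_sum, Fintype.sum_prod_type]
      refine Finset.sum_congr rfl fun i _ => Finset.sum_congr rfl fun j _ => ?_
      have : (((⟨c i j, hc i j⟩ : IntermediateField.adjoin k {X}) • e (i, j) :
          IntermediateField.extendScalars hle) : Ω) = c i j * (S ^ (i : ℕ) * Y ^ (j : ℕ)) := rfl
      rw [this]
      ring
    rw [h1]
    exact Submodule.sum_mem _ fun ij _ =>
      Submodule.smul_mem _ _ (Submodule.subset_span ⟨ij, rfl⟩)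
  have hb := Module.finrank_eq_card_basis (Module.Basis.mk hli hsp)
  rw [hb, Fintype.card_prod, Fintype.card_fin, Fintype.card_fin]

end Pool.CND
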